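import Pool.Agent.Lib.MP_a78e1f_lc.K.Iface

/-!
# SCH and SAA
-/

universe u v w

open Cardinal Filter MeasureTheory

namespace Pool.Agent.Lib.MP_a78e1f_lc.H87

open Pool.Agent.Lib.MP_a78e1f_lc

/-! ## SCH -/

/-- The scheme with a continuous decoding. -/
theorem sch : SchStatement := by
  classical
  intro b w hb S hS
  let Γ : ∀ k, Finset ((Fin (b (H35.lev b w k)) → Bool) → (Fin (H35.lev b w k) → Bool)) :=
    fun k => Finset.univ.filter fun γ => H35.enc _ γ ∈ S k ∧
      ∀ s s', γ s = γ s' → H35.Agr (H35.len b w k + H35.free w k) (H35.ext0 s) (H35.ext0 s')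
  have hΓ : ∀ k, (Γ k).card ≤ w k := by
    intro k
    refine le_trans (Finset.card_le_card_of_injOn (H35.enc _) ?_ ?_) (hS k)
    · intro γ hγ
      exact (Finset.mem_filter.1 hγ).2.1
    · exact (H35.enc_injective _).injOn
  have hstep : ∀ k (P : (Fin k → Bool) → Cs), ∃ V : (Fin (k + 1) → Bool) → Cs,
      (∀ σ, H35.Agr (H35.len b w k) (V σ) (P (Fin.init σ))) ∧
      ∀ σ σ', σ ≠ σ' → ∀ γ ∈ Γ k, ∀ γ' ∈ Γ k,
        γ (H35.res (b (H35.lev b w k)) (V σ)) ≠ γ' (H35.res (b (H35.lev b w k)) (V σ')) := by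
    intro k P
    refine H35.stage (q := H35.len b w k + H35.free w k) (w := w k) rfl ?_ (Γ k) (hΓ k) ?_ P
    · exact le_trans (hb _) (hb _)
    · intro γ hγ
      exact (Finset.mem_filter.1 hγ).2.2
  choose step hstep1 hstep2 using hstep
  let U : ∀ k : ℕ, (Fin k → Bool) → Cs := fun k =>
    Nat.rec (fun _ _ => false) (fun k P => step k P) k
  have hU : ∀ k, U (k + 1) = step k (U k) := fun k => rfl
  obtain ⟨X, hXc, hX⟩ := H35.scheme_limit (H35.len b w) (H35.le_len hb) (H35.len_mono hb) U
    (fun k σ => by rw [hU k]; exact hstep1 k (U k) σ)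
  -- the decoding
  let Q : ∀ i : ℕ, (Fin (H35.lev b w i) → Bool) → (Fin (i + 1) → Bool) → Prop := fun i r σ =>
    ∃ γ ∈ Γ i, γ (H35.res (b (H35.lev b w i)) (U (i + 1) σ)) = r
  let D : ∀ i : ℕ, (Fin (H35.lev b w i) → Bool) → Bool := fun i r =>
    if h : ∃ σ, Q i r σ then h.choose (Fin.last i) else false
  refine ⟨X, hXc, fun i z => D i (H35.res (H35.lev b w i) z), ?_, ?_⟩
  · intro i
    refine ⟨H35.lev b w i, fun z z' h => ?_⟩
    have h1 : H35.res (H35.lev b w i) z = H35.res (H35.lev b w i) z' :=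
      H35.agr_iff_res.1 fun k hk => h k hk
    change D i _ = D i _
    rw [h1]
  · intro g hg y i
    have hmem : H35.approx (b (H35.lev b w i)) (H35.lev b w i) g ∈ Γ i := by
      refine Finset.mem_filter.2 ⟨Finset.mem_univ _, hg.slalom i, ?_⟩
      intro s s' hss
      exact hg.mod.bwd _ _ _ (H35.agr_iff_res.2 hss)
    have happ : H35.approx (b (H35.lev b w i)) (H35.lev b w i) g
        (H35.res (b (H35.lev b w i)) (U (i + 1) (H35.res (i + 1) y))) =
        H35.res (H35.lev b w i) (g (X y)) := by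
      have h1 : H35.Agr (b (H35.lev b w i)) (X y) (U (i + 1) (H35.res (i + 1) y)) := hX y (i + 1)
      have h2 := (H35.agr_ext0_res (b (H35.lev b w i)) (U (i + 1) (H35.res (i + 1) y))).trans
        h1.symm
      exact H35.agr_iff_res.1 (hg.mod.fwd _ _ _ h2)
    have hex : ∃ σ, Q i (H35.res (H35.lev b w i) (g (X y))) σ :=
      ⟨H35.res (i + 1) y, _, hmem, happ⟩
    change (if h : ∃ σ, Q i (H35.res (H35.lev b w i) (g (X y))) σ then h.choose (Fin.last i)
      else false) = y i
    rw [dif_pos hex]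
    obtain ⟨γ, hγ, h1⟩ := hex.choose_spec
    have h2 : hex.choose = H35.res (i + 1) y := by
      by_contra hne
      exact hstep2 i (U i) _ _ hne γ hγ _ hmem (h1.trans happ.symm)
    rw [h2]
    rfl

/-! ## Lists -/

theorem length_res (x : Cs) (n : ℕ) : (res x n).length = n := by
  simp [res]

theorem res_eq_iff (x y : Cs) (n : ℕ) : res x n = res y n ↔ ∀ i < n, x i = y i := by
  unfold res
  constructor
  · intro h i hi
    have h1 := congrArg (fun l => l[i]?) h
    simpa [hi] using h1
  · intro h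
    apply List.map_congr_left
    intro i hi
    exact h i (List.mem_range.1 hi)

theorem take_res (x : Cs) {m n : ℕ} (h : m ≤ n) : (res x n).take m = res x m := by
  unfold res
  rw [← List.map_take, List.take_range, min_eq_left h]

theorem res_prefix (x : Cs) {m n : ℕ} (h : m ≤ n) : res x m <+: res x n := by
  rw [← take_res x h]
  exact List.take_prefix _ _

theorem res_cpb (x : Cs) (m n : ℕ) : Cpb (res x m) (res x n) := by
  rcases le_total m n with h | h
  · exact Or.inl (res_prefix x h)
  · exact Or.inr (res_prefix x h)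

theorem eq_res_of_prefix {x : Cs} {σ : List Bool} {n : ℕ} (h : σ <+: res x n) :
    σ = res x σ.length := by
  have h1 := h.length_le
  rw [length_res] at h1
  have h2 := List.prefix_iff_eq_take.1 h
  rw [take_res x h1] at h2
  exact h2

theorem eq_of_cpb {σ τ : List Bool} (h : Cpb σ τ) (hl : σ.length = τ.length) : σ = τ := by
  rcases h with h | h
  · exact h.eq_of_length hl
  · exact (h.eq_of_length hl.symm).symm

theorem getD_of_cpb {σ τ : List Bool} (h : Cpb σ τ) {i : ℕ} (hi : i < σ.length)
    (hi' : i < τ.length) : σ.getD i false = τ.getD i false := by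
  have key : ∀ {σ τ : List Bool}, σ <+: τ → i < σ.length → σ.getD i false = τ.getD i false := by
    intro σ τ h hi
    obtain ⟨ρ, rfl⟩ := h
    rw [List.getD_append _ _ _ _ hi]
  rcases h with h | h
  · exact key h hi
  · exact (key h hi').symm

theorem eq_of_res {x y : Cs} (h : ∀ n, res x n = res y n) : x = y := by
  funext i
  exact (res_eq_iff x y (i + 1)).1 (h (i + 1)) i (Nat.lt_succ_self i)

/-! ## SAA -/

/-- SAA. -/
theorem saa : SaaStatement := by
  classical
  intro F G H
  have limeq : ∀ {x v v' : Cs} {k n : ℕ}, F (res x k) (res v n) → Lim F x v' →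
      res v n = res v' n := by
    intro x v v' k n h h'
    obtain ⟨k', hk'⟩ := h' n
    exact eq_of_cpb (H.cf _ _ _ _ (res_cpb x k k') h hk') (by rw [length_res, length_res])
  refine ⟨?_, ?_, ?_, ?_, ?_⟩
  · rintro m n hmn x ⟨k, τ, τ', h1, h2, h3, h4⟩
    exact ⟨k, τ, τ', h1, hmn.trans h2, h3, H.mg _ _ _ (res_prefix x hmn) h4⟩
  · have h1 : ∀ (σ : List Bool) (n : ℕ), ∃ B : ℕ, ∀ x : Cs, H35.Agr B x (xz σ) → x ∈ Gop F G n := by
      intro σ n
      obtain ⟨v, hv, hv'⟩ := H.pt σ
      obtain ⟨k', hk'⟩ := hv' n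
      obtain ⟨k, hk⟩ := hv (max n k')
      refine ⟨max k n, fun x hx => ?_⟩
      have h1 : res x k = res (xz σ) k :=
        (res_eq_iff _ _ _).2 fun i hi => hx i (lt_of_lt_of_le hi (le_max_left _ _))
      have h2 : res x n = res (xz σ) n :=
        (res_eq_iff _ _ _).2 fun i hi => hx i (lt_of_lt_of_le hi (le_max_right _ _))
      refine ⟨k, res v (max n k'), res v k', ?_, ?_, res_prefix v (le_max_right _ _), ?_⟩
      · rw [h1]; exact hk
      · rw [length_res]; exact le_max_left _ _
      · rw [h2]; exact hk'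
    choose B hB using h1
    refine ⟨fun n => (List.finite_length_eq Bool n).toFinset.sup fun σ => B σ n, ?_⟩
    intro n s
    refine ⟨xz (res s n), ?_, ?_⟩
    · intro i hi
      unfold xz res
      simp [List.getD, hi]
    · intro x hx
      apply hB (res s n) n x
      refine hx.mono ?_
      refine Finset.le_sup (f := fun σ => B σ n) ?_
      rw [Set.Finite.mem_toFinset]
      exact length_res s n
  · intro x hx
    choose k τ τ' h1 h2 h3 h4 using hx
    let v : Cs := fun i => (τ (i + 1)).getD i false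
    have hv : ∀ n, res v n = (τ n).take n := by
      intro n
      apply List.ext_getElem
      · rw [length_res, List.length_take, min_eq_left (h2 n)]
      · intro i hi hi'
        rw [length_res] at hi
        have h5 : (res v n)[i] = v i := by simp [res]
        rw [h5]
        have h6 : (τ (i + 1)).getD i false = (τ n).getD i false :=
          getD_of_cpb (H.cf _ _ _ _ (res_cpb x (k (i + 1)) (k n)) (h1 (i + 1)) (h1 n))
            (h2 (i + 1)) (lt_of_lt_of_le hi (h2 n))
        have h7 : v i = (τ n).getD i false := h6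
        rw [h7, List.getElem_take, List.getD_eq_getElem _ _ (lt_of_lt_of_le hi (h2 n))]
    have hlim : Lim F x v := by
      intro n
      refine ⟨k n, H.mf _ _ _ ?_ (h1 n)⟩
      rw [hv]
      exact List.take_prefix _ _
    refine ⟨v, hlim, fun v' hv' => ?_⟩
    apply eq_of_res
    intro n
    obtain ⟨k', hk'⟩ := hv' n
    exact limeq hk' hlim
  · intro x v _ hv n
    obtain ⟨k, hk⟩ := hv n
    refine ⟨k, fun x' v' _ hv' hxx' i hi => ?_⟩
    have h1 : res x' k = res x k := (res_eq_iff _ _ _).2 hxx'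
    rw [← h1] at hk
    exact ((res_eq_iff _ _ _).1 (limeq hk hv') i hi).symm
  · intro x x' v hx hx' hv hv'
    apply eq_of_res
    intro n
    obtain ⟨k, τ, τ', h1, h2, h3, h4⟩ := hx n
    obtain ⟨k1, τ1, τ1', g1, g2, g3, g4⟩ := hx' n
    have key : ∀ {x : Cs} {k : ℕ} {τ τ' : List Bool}, F (res x k) τ → τ' <+: τ → Lim F x v →
        τ' = res v τ'.length := by
      intro x k τ τ' h1 h3 hv
      obtain ⟨k2, hk2⟩ := hv τ.length
      have h5 : τ = res v τ.length :=
        eq_of_cpb (H.cf _ _ _ _ (res_cpb x k k2) h1 hk2) (by rw [length_res])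
      rw [h5] at h3
      exact eq_res_of_prefix h3
    have h5 : Cpb τ' τ1' := by
      rw [key h1 h3 hv, key g1 g3 hv']
      exact res_cpb _ _ _
    exact eq_of_cpb (H.cg _ _ _ _ h5 h4 g4) (by rw [length_res, length_res])

end Pool.Agent.Lib.MP_a78e1f_lc.H87
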