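import Pool.Agent.Lib.MP_a78e1f_lc.R.Iface

/-!
# PIR: the map `piR f π`

The algebra is done for arbitrary complete Boolean algebras `R`, `S` in place of `RA A`, `RA C`.
-/

universe u v w x

open Cardinal Filter MeasureTheory

namespace Pool.Agent.Lib.MP_a78e1f_lc.H87

open Pool.Agent.Lib.MP_100a6c_lc
open Pool.Agent.Lib.MP_c5d73d_lc.F (pr)
open Pool.Agent.Lib.MP_e6fef2_lc
open Pool.Agent.Lib.MP_6d445e_gt
open Pool.Agent.Lib.MP_a78e1f_lc

section order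

variable {A : Type v} [CompleteBooleanAlgebra A]

theorem le_of_inf_bot {x y : A} (h : ∀ r : A, r ⊓ y = ⊥ → r ⊓ x = ⊥) : x ≤ y := by
  have h1 : yᶜ ⊓ y = ⊥ := compl_inf_self y
  have h2 := h yᶜ h1
  rw [← compl_compl y, le_compl_iff_disjoint_left, disjoint_iff]
  exact h2

/-- Elements of a Boolean algebra with the same disjoint elements are equal. -/
theorem eq_of_inf_bot {x y : A} (h : ∀ r : A, r ⊓ x = ⊥ ↔ r ⊓ y = ⊥) : x = y :=
  le_antisymm (le_of_inf_bot fun r => (h r).2) (le_of_inf_bot fun r => (h r).1)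

theorem le_iff_inf_compl {x y : A} : x ≤ y ↔ x ⊓ yᶜ = ⊥ := by
  rw [← disjoint_iff, ← le_compl_iff_disjoint_right, compl_compl]

theorem compl_inf_compl (x y : A) : (xᶜ ⊓ yᶜ)ᶜ = x ⊔ y := by
  rw [compl_inf, compl_compl, compl_compl]

theorem le_sup_diff (x y : A) : x ≤ y ⊔ (x ⊓ yᶜ) := by
  rw [sup_inf_left, sup_compl_eq_top, inf_top_eq]
  exact le_sup_right

end order

section

variable {A C : Type u} [CompleteBooleanAlgebra A] [CompleteBooleanAlgebra C] {f : A → C}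
  {π : C → A}

theorem addM_mono (hπ : AddM f π) {c d : C} (h : c ≤ d) : π c ≤ π d := by
  have h1 : c ⊔ d = d := sup_eq_right.2 h
  rw [← h1, hπ.sup]
  exact le_sup_left

theorem addM_bot (hf : IsCE f) (hπ : AddM f π) : π ⊥ = ⊥ := by
  have h1 := hπ.lin ⊥ ⊥
  rw [(all_alg A C f hf).2.1, inf_bot_eq, inf_bot_eq] at h1
  exact h1

theorem addM_prj (hf : IsCE f) : AddM f (prj f) := by
  obtain ⟨-, -, -, hsup, -, -, -, -, -, -, hgc, -, -, -, -, -, hlin, -, -⟩ := all_alg A C f hf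
  refine ⟨fun c c' => ?_, hlin⟩
  apply le_antisymm
  · rw [hgc, hsup]
    exact sup_le_sup ((hgc _ _).1 le_rfl) ((hgc _ _).1 le_rfl)
  · refine sup_le ?_ ?_
    · rw [hgc]
      exact le_sup_left.trans ((hgc _ _).1 le_rfl)
    · rw [hgc]
      exact le_sup_right.trans ((hgc _ _).1 le_rfl)

end

/-! ## The abstract form -/

section abstract

variable {A C R S : Type u} [CompleteBooleanAlgebra A] [CompleteBooleanAlgebra C]
  [CompleteBooleanAlgebra R] [CompleteBooleanAlgebra S] {f : A → C} {F : R → S} {π : C → A}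
  {mS : S → ℝ → C} {mR : R → ℝ → A}

/-- The set `I_e`. -/
def II (F : R → S) (mS : S → ℝ → C) (π : C → A) (e : S) (r : R) : Prop :=
  ∀ q : ℝ, 0 < q → π (mS (e ⊓ F r) q) = ⊥

/-- The map. -/
def pa (F : R → S) (mS : S → ℝ → C) (π : C → A) (e : S) : R :=
  (sSup {r : R | ∀ q : ℝ, 0 < q → π (mS (e ⊓ F r) q) = ⊥})ᶜ

/-- The properties of the measure which are used. -/
structure Hm (f : A → C) (F : R → S) (mS : S → ℝ → C) (mR : R → ℝ → A) : Prop where
  mono : ∀ (r s : S) (q : ℝ), r ≤ s → mS r q ≤ mS s q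
  half : ∀ (r s : S) (q : ℝ), mS (r ⊔ s) q ≤ mS r (q / 2) ⊔ mS s (q / 2)
  bot : ∀ q : ℝ, 0 < q → mS ⊥ q = ⊥
  map : ∀ (r : R) (q : ℝ), f (mR r q) = mS (F r) q
  app : ∀ (I : Set R) (q : ℝ), 0 < q → ∀ a : A, a ≠ ⊥ → ∃ b, b ≠ ⊥ ∧ b ≤ a ∧
    ∃ s : Finset I, b ⊓ mR (sSup I ⊓ (⨆ t ∈ s, t.1)ᶜ) q = ⊥

variable (H : Hm f F mS mR) (hf : IsCE f) (hF : IsCE F)
include H

theorem II_mono (hπ : AddM f π) {e e' : S} {r r' : R} (h : e' ⊓ F r' ≤ e ⊓ F r)
    (hr : II F mS π e r) : II F mS π e' r' := by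
  intro q hq
  have h1 := H.mono _ _ q h
  exact le_bot_iff.1 ((addM_mono hπ h1).trans (hr q hq).le)

theorem II_sup (hπ : AddM f π) {e : S} {r r' : R} (hrs : F (r ⊔ r') = F r ⊔ F r')
    (hr : II F mS π e r) (hr' : II F mS π e r') : II F mS π e (r ⊔ r') := by
  intro q hq
  rw [hrs, inf_sup_left]
  refine le_bot_iff.1 ((addM_mono hπ (H.half _ _ q)).trans ?_)
  rw [hπ.sup, hr _ (half_pos hq), hr' _ (half_pos hq), sup_bot_eq]

theorem II_sup_left (hπ : AddM f π) {e e' : S} {r : R}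
    (hr : II F mS π e r) (hr' : II F mS π e' r) : II F mS π (e ⊔ e') r := by
  intro q hq
  rw [inf_sup_right]
  refine le_bot_iff.1 ((addM_mono hπ (H.half _ _ q)).trans ?_)
  rw [hπ.sup, hr _ (half_pos hq), hr' _ (half_pos hq), sup_bot_eq]

include hf hF

theorem II_finset (hπ : AddM f π) {e : S} {T : Type x} (s : Finset T) (r : T → R)
    (hr : ∀ t, II F mS π e (r t)) : II F mS π e (⨆ t ∈ s, r t) := by
  classical
  have halg := all_alg R S F hF
  induction s using Finset.induction_on with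
  | empty =>
    intro q hq
    simp only [Finset.notMem_empty, iSup_false, iSup_bot]
    rw [halg.2.1, inf_bot_eq, H.bot q hq, addM_bot hf hπ]
  | insert t s ht ih =>
    rw [Finset.iSup_insert]
    exact II_sup H hπ (halg.2.2.2.1 _ _) (hr t) ih

/-- `I_e` is closed under suprema. -/
theorem II_sSup (hπ : AddM f π) {e : S} (I : Set R) (hI : ∀ r ∈ I, II F mS π e r) :
    II F mS π e (sSup I) := by
  classical
  have halg := all_alg R S F hF
  have halgf := all_alg A C f hf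
  intro q hq
  by_contra hne
  obtain ⟨b, hb, hba, s, h2⟩ := H.app I (q / 2) (half_pos hq) _ hne
  have h3 : mS (e ⊓ F (sSup I)) q ⊓ f b ≤ mS (e ⊓ F (⨆ t ∈ s, t.1)) (q / 2) := by
    have h4 : e ⊓ F (sSup I) ≤ (e ⊓ F (⨆ t ∈ s, t.1)) ⊔ F (sSup I ⊓ (⨆ t ∈ s, t.1)ᶜ) := by
      have h5 : sSup I ≤ (⨆ t ∈ s, t.1) ⊔ (sSup I ⊓ (⨆ t ∈ s, t.1)ᶜ) := le_sup_diff _ _
      have h6 := (halg.2.2.2.2.1 _ _).2 h5
      rw [halg.2.2.2.1] at h6
      refine (inf_le_inf_left e h6).trans ?_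
      rw [inf_sup_left]
      exact sup_le_sup_left inf_le_right _
    have h5 := (H.mono _ _ q h4).trans (H.half _ _ q)
    rw [← H.map] at h5
    refine (inf_le_inf_right (f b) h5).trans ?_
    rw [inf_sup_right]
    refine sup_le inf_le_left ?_
    rw [← halgf.2.2.1, inf_comm, h2, halgf.2.1]
    exact bot_le
  have h4 := II_finset H hf hF hπ s (fun t : I => t.1) (fun t => hI t.1 t.2) (q / 2)
    (half_pos hq)
  have h5 := addM_mono hπ h3
  rw [hπ.lin, h4, inf_eq_right.2 hba] at h5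
  exact hb (le_bot_iff.1 h5)

/-- The characterisation. -/
theorem pa_iff (hπ : AddM f π) (e : S) (r : R) : r ⊓ pa F mS π e = ⊥ ↔ II F mS π e r := by
  have halg := all_alg R S F hF
  unfold pa
  rw [← le_iff_inf_compl]
  constructor
  · intro h
    refine II_mono H hπ (inf_le_inf_left e ((halg.2.2.2.2.1 _ _).2 h)) ?_
    exact II_sSup H hf hF hπ _ fun r hr => hr
  · intro h
    exact le_sSup h

theorem pa_add (hπ : AddM f π) : AddM F (pa F mS π) := by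
  have halg := all_alg R S F hF
  constructor
  · intro e e'
    apply eq_of_inf_bot
    intro r
    rw [pa_iff H hf hF hπ, inf_sup_left, sup_eq_bot_iff, pa_iff H hf hF hπ, pa_iff H hf hF hπ]
    constructor
    · intro h
      exact ⟨II_mono H hπ (inf_le_inf_right _ le_sup_left) h,
        II_mono H hπ (inf_le_inf_right _ le_sup_right) h⟩
    · rintro ⟨h, h'⟩
      exact II_sup_left H hπ h h'
  · intro e s
    apply eq_of_inf_bot
    intro r
    have h1 : r ⊓ (pa F mS π e ⊓ s) = (r ⊓ s) ⊓ pa F mS π e := by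
      rw [inf_assoc, inf_comm s]
    have h2 : e ⊓ F s ⊓ F r = e ⊓ F (r ⊓ s) := by
      rw [halg.2.2.1, inf_assoc, inf_comm (F s)]
    rw [pa_iff H hf hF hπ, h1, pa_iff H hf hF hπ]
    unfold II
    rw [h2]

/-- The images of the elements of the subalgebra. -/
theorem pa_kap (hπ : AddM f π) {kA : A → R} {kC : C → S}
    (k1 : ∀ (r : R) (a : A) (q : ℝ), 0 < q → mR (kA a ⊓ r) q = a ⊓ mR r q)
    (k2 : ∀ (r : S) (c : C) (q : ℝ), 0 < q → mS (kC c ⊓ r) q = c ⊓ mS r q)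
    (k3 : ∀ r : R, (∀ q : ℝ, 0 < q → mR r q = ⊥) → r = ⊥) (k4 : ∀ q : ℝ, 0 < q → mR ⊥ q = ⊥)
    (c : C) : pa F mS π (kC c) = kA (π c) := by
  apply eq_of_inf_bot
  intro r
  have h1 : ∀ q : ℝ, 0 < q → π (mS (kC c ⊓ F r) q) = mR (kA (π c) ⊓ r) q := by
    intro q hq
    rw [k2 _ _ _ hq, k1 _ _ _ hq, ← H.map, hπ.lin]
  rw [pa_iff H hf hF hπ]
  constructor
  · intro h
    rw [inf_comm]
    refine k3 _ fun q hq => ?_
    rw [← h1 q hq]
    exact h q hq
  · intro h q hq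
    rw [h1 q hq, inf_comm, h]
    exact k4 q hq

omit hf hF H in
theorem pa_lin {kC : C → S}
    (k2 : ∀ (r : S) (c : C) (q : ℝ), 0 < q → mS (kC c ⊓ r) q = c ⊓ mS r q) (e : S) (d : C) :
    pa F mS (fun c => π (c ⊓ d)) e = pa F mS π (e ⊓ kC d) := by
  unfold pa
  congr 2
  ext r
  refine forall_congr' fun q => forall_congr' fun hq => ?_
  have h1 : mS (e ⊓ kC d ⊓ F r) q = mS (e ⊓ F r) q ⊓ d := by
    rw [inf_comm e, inf_assoc, k2 _ _ _ hq, inf_comm]
  rw [h1]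

theorem pa_prj (k3 : ∀ r : S, (∀ q : ℝ, 0 < q → mS r q = ⊥) → r = ⊥) (e : S) :
    pa F mS (prj f) e = prj F e := by
  have halg := all_alg R S F hF
  have halgf := all_alg A C f hf
  apply eq_of_inf_bot
  intro r
  rw [pa_iff H hf hF (addM_prj hf), ← halg.2.2.2.2.2.2.2.2.2.2.2.2.2.2.2.2.2.2 e r]
  constructor
  · intro h
    rw [inf_comm]
    refine k3 _ fun q hq => ?_
    exact (halgf.2.2.2.2.2.2.2.2.2.2.2.2.2.2.2.2.2.1 _).1 (h q hq)
  · intro h q hq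
    rw [inf_comm, h, H.bot q hq]
    exact (halgf.2.2.2.2.2.2.2.2.2.2.2.2.2.2.2.2.2.1 _).2 rfl

theorem pa_sup (hπ : AddM f π) {T : Type w} (π' : T → C → A) (hπ' : ∀ t, AddM f (π' t))
    (h : ∀ c, π c ≤ ⨆ t, π' t c) (e : S) : pa F mS π e ≤ ⨆ t, pa F mS (π' t) e := by
  apply le_of_inf_bot
  intro r hr
  rw [pa_iff H hf hF hπ]
  intro q hq
  refine le_bot_iff.1 ((h _).trans ?_)
  refine iSup_le fun t => ?_
  have h1 : r ⊓ pa F mS (π' t) e = ⊥ :=
    le_bot_iff.1 ((inf_le_inf_left r (le_iSup (fun t => pa F mS (π' t) e) t)).trans hr.le)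
  exact ((pa_iff H hf hF (hπ' t) e r).1 h1 q hq).le

theorem pa_mono (hπ : AddM f π) (π' : C → A) (hπ' : AddM f π') (h : ∀ c, π' c ≤ π c) (e : S) :
    pa F mS π' e ≤ pa F mS π e := by
  apply le_of_inf_bot
  intro r hr
  rw [pa_iff H hf hF hπ']
  intro q hq
  exact le_bot_iff.1 ((h _).trans ((pa_iff H hf hF hπ e r).1 hr q hq).le)

end abstract

/-! ## The random extension -/

theorem mkR_union (hrapi : RapiStatement.{u}) {A : Type u} [CompleteBooleanAlgebra A]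
    {E F : Set (Pt A)} (hE : MeasurableSet E) (hF : MeasurableSet F) :
    mkR (E ∪ F) = mkR E ⊔ mkR F := by
  obtain ⟨-, hinf, hcpl, -⟩ := hrapi A
  have h1 : E ∪ F = (Eᶜ ∩ Fᶜ)ᶜ := by
    rw [Set.compl_inter, compl_compl, compl_compl]
  rw [h1, hcpl _ (hE.compl.inter hF.compl), hinf _ _ hE.compl hF.compl, hcpl _ hE, hcpl _ hF]
  exact compl_inf_compl (mkR E) (mkR F)

theorem mkR_biUnion (hrapi : RapiStatement.{u}) {A : Type u} [CompleteBooleanAlgebra A]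
    {T : Type v} (s : Finset T) (E : T → Set (Pt A)) (hE : ∀ t, MeasurableSet (E t)) :
    mkR (⋃ t ∈ s, E t) = ⨆ t ∈ s, mkR (E t) := by
  classical
  induction s using Finset.induction_on with
  | empty =>
    simp only [Finset.notMem_empty, Set.iUnion_of_empty, Set.iUnion_empty, iSup_false, iSup_bot]
    exact (hrapi A).2.2.2.2.2.1
  | insert t s ht ih =>
    rw [Finset.set_biUnion_insert, Finset.iSup_insert, ← ih]
    exact mkR_union hrapi (hE t) (Finset.measurableSet_biUnion s fun t _ => hE t)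

theorem rep_app (hmq : MqStatement.{u}) (hrep : RepStatement.{u}) (hrapi : RapiStatement.{u})
    {A : Type u} [CompleteBooleanAlgebra A] (I : Set (RA A)) (q : ℝ) (hq : 0 < q) (a : A)
    (ha : a ≠ ⊥) : ∃ b, b ≠ ⊥ ∧ b ≤ a ∧
    ∃ s : Finset I, b ⊓ mq (sSup I ⊓ (⨆ t ∈ s, t.1)ᶜ) q = ⊥ := by
  classical
  obtain ⟨b, hb, hba, s, hs⟩ := (hrep A).2.2 I (fun t => t.1) q hq a ha
  have hR : (⨆ t : I, t.1) = sSup I := (sSup_eq_iSup' (α := RA A) I).symm
  rw [hR] at hs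
  have hmeas : ∀ r : RA A, MeasurableSet (rep r) := fun r => ((hrep A).1 r).1
  have h0 : MeasurableSet (⋃ t ∈ s, rep t.1) :=
    Finset.measurableSet_biUnion s fun t _ => hmeas _
  have hd : mkR (rep (sSup I) \ ⋃ t ∈ s, rep t.1) = sSup I ⊓ (⨆ t ∈ s, t.1)ᶜ := by
    have h2 : mkR (⋃ t ∈ s, rep t.1) = ⨆ t ∈ s, t.1 := by
      rw [mkR_biUnion hrapi s (fun t => rep t.1) fun t => hmeas _]
      simp only [((hrep A).1 _).2]
    have h3 : rep (sSup I) \ (⋃ t ∈ s, rep t.1) = rep (sSup I) ∩ (⋃ t ∈ s, rep t.1)ᶜ := rfl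
    rw [h3, (hrapi A).2.1 _ _ (hmeas _) h0.compl, (hrapi A).2.2.1 _ h0, h2, ((hrep A).1 _).2]
  refine ⟨b, hb, hba, s, ?_⟩
  apply le_bot_iff.1
  apply le_of_ae
  have h3 := ((hrep A).2.1 _ ((hmeas (sSup I)).diff h0)).1
  rw [hd] at h3
  filter_upwards [h3, hs, (hmq A).1 (sSup I ⊓ (⨆ t ∈ s, t.1)ᶜ) q] with g h3 h4 h5 h6
  exfalso
  rw [g.mem_inf] at h6
  have h6' := h5.1 h6.2
  have h7 := h4 h6.1
  have h8 : cm (sec (rep (sSup I ⊓ (⨆ t ∈ s, t.1)ᶜ)) g) ≤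
      cm (sec (rep (sSup I) \ ⋃ t ∈ s, rep t.1) g) := by
    have h9 : sec (rep (sSup I ⊓ (⨆ t ∈ s, t.1)ᶜ)) g ⊆
        sec (rep (sSup I) \ ⋃ t ∈ s, rep t.1) g ∪
        sec (rep (sSup I ⊓ (⨆ t ∈ s, t.1)ᶜ) \ (rep (sSup I) \ ⋃ t ∈ s, rep t.1)) g := by
      intro x hx
      by_cases hx' : x ∈ sec (rep (sSup I) \ ⋃ t ∈ s, rep t.1) g
      · exact Or.inl hx'
      · exact Or.inr ⟨hx, hx'⟩
    refine (measure_mono h9).trans ((measure_union_le _ _).trans ?_)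
    rw [h3, add_zero]
  have h9 : IsProbabilityMeasure cm := by
    unfold cm
    infer_instance
  have h10 : cm.real (sec (rep (sSup I ⊓ (⨆ t ∈ s, t.1)ᶜ)) g) ≤
      cm.real (sec (rep (sSup I) \ ⋃ t ∈ s, rep t.1) g) :=
    ENNReal.toReal_mono (measure_ne_top _ _) h8
  linarith

/-- PIR. -/
theorem pir (hmq : MqStatement.{u}) (hrfm : RfmStatement.{u}) (hrep : RepStatement.{u})
    (hrapi : RapiStatement.{u}) : PirStatement.{u, w} := by
  intro A C _ _ f hf π hπ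
  obtain ⟨hrf, -, -, -, hkapf, hcyf, hmqf, -⟩ := hrfm A C f hf
  have H : Hm f (rmap f) (mq : RA C → ℝ → C) (mq : RA A → ℝ → A) := by
    refine ⟨fun r s q h => (hmq C).2.1 r s q q h le_rfl, ?_, fun q hq => (hmq C).2.2.2.2.2.1 q hq.le,
      hmqf, fun I q hq a ha => rep_app hmq hrep hrapi I q hq a ha⟩
    intro r s q
    have h := (hmq C).2.2.1 r s (q / 2) (q / 2)
    rw [add_halves] at h
    exact h
  have k1 : ∀ (r : RA A) (a : A) (q : ℝ), 0 < q → mq (kap a ⊓ r) q = a ⊓ mq r q :=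
    fun r a q hq => (hmq A).2.2.2.1 r a q hq.le
  have k2 : ∀ (r : RA C) (c : C) (q : ℝ), 0 < q → mq (kap c ⊓ r) q = c ⊓ mq r q :=
    fun r c q hq => (hmq C).2.2.2.1 r c q hq.le
  refine ⟨fun e r => pa_iff H hf hrf hπ e r, pa_add H hf hrf hπ,
    fun c => pa_kap H hf hrf hπ k1 k2 (hmq A).2.2.2.2.1
      (fun q hq => (hmq A).2.2.2.2.2.1 q hq.le) c,
    fun e d => pa_lin k2 e d, fun e => pa_prj H hf hrf (hmq C).2.2.2.2.1 e, ?_,
    fun T π' hπ' h e => pa_sup H hf hrf hπ π' hπ' h e,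
    fun π' hπ' h e => pa_mono H hf hrf hπ π' hπ' h e⟩
  intro e σ
  have h := (pa_add H hf hrf hπ).lin e (cy σ)
  rw [hcyf] at h
  exact h

end Pool.Agent.Lib.MP_a78e1f_lc.H87
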